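import Mathlib

set_option autoImplicit false

/-!
# MP_59918e_co: an equistable graph which is not weakly CIS

Let `F` be the triangle-free graph with the nine vertices `0, …, 8` and the fourteen edges
`01 05 08 12 14 23 26 35 38 47 48 57 67 68`, and let `G` be the complement of its line graph.  The
maximal stable sets of `G` are the nine stars of `F`.  With the weights `w` below (divided by `600`)
the stars are the only sets of edges of weight `1`, so `G` is equistable.  Two edges of `F` with a
common vertex `v` lie in no other maximal stable set than the star of `v`, so every non-edge covering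
family of maximal stable sets contains all stars; a clique of `G` which meets all of them would be
a perfect matching of `F`, but `F` has an odd number of vertices.
-/

namespace Pool.Agent.Results.MP_59918e_co.NotWeaklyCIS

variable {V : Type*} [Fintype V] [DecidableEq V]

/-- `S` is a maximal stable set of `G`. -/
def IsMaxStable (G : SimpleGraph V) (S : Finset V) : Prop :=
  Maximal (fun T : Finset V => G.IsIndepSet (T : Set V)) S

/-- `C` is a maximal clique of `G`. -/
def IsMaxClique (G : SimpleGraph V) (C : Finset V) : Prop :=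
  Maximal (fun T : Finset V => G.IsClique (T : Set V)) C

/-- `G` is equistable: there are nonnegative weights such that a set of vertices is a maximal stable
set if and only if its weight is `1`. -/
def IsEquistable (G : SimpleGraph V) : Prop :=
  ∃ φ : V → ℝ, (∀ v, 0 ≤ φ v) ∧ ∀ S : Finset V, IsMaxStable G S ↔ ∑ v ∈ S, φ v = 1

/-- `G` is weakly CIS: there are an edge covering family of maximal cliques and a non-edge covering
family of maximal stable sets which are cross-intersecting. -/
def IsWeaklyCIS (G : SimpleGraph V) : Prop :=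
  ∃ 𝒞 𝒮 : Set (Finset V),
    (∀ C ∈ 𝒞, IsMaxClique G C) ∧ (∀ S ∈ 𝒮, IsMaxStable G S) ∧
    (∀ x y, G.Adj x y → ∃ C ∈ 𝒞, x ∈ C ∧ y ∈ C) ∧
    (∀ x y, x ≠ y → ¬ G.Adj x y → ∃ S ∈ 𝒮, x ∈ S ∧ y ∈ S) ∧
    ∀ C ∈ 𝒞, ∀ S ∈ 𝒮, (C ∩ S).Nonempty

/-- the edges of `F` -/
def e : Fin 14 → Finset (Fin 9) :=
  ![{0, 1}, {0, 5}, {0, 8}, {1, 2}, {1, 4}, {2, 3}, {2, 6}, {3, 5}, {3, 8}, {4, 7}, {4, 8}, {5, 7},
    {6, 7}, {6, 8}]

/-- the weights (with total weight `600` at every vertex) -/
def w : Fin 14 → ℕ := ![364, 80, 156, 59, 177, 263, 278, 279, 58, 232, 191, 241, 127, 195]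

/-- the complement of the line graph of `F` -/
def G : SimpleGraph (Fin 14) where
  Adj i j := Disjoint (e i) (e j)
  symm := ⟨fun _ _ h => Disjoint.symm h⟩
  loopless := ⟨by decide⟩

theorem adj_iff (i j : Fin 14) : G.Adj i j ↔ Disjoint (e i) (e j) := Iff.rfl

/-- the star of the vertex `v` -/
def star (v : Fin 9) : Finset (Fin 14) := Finset.univ.filter fun i => v ∈ e i

theorem mem_star (v : Fin 9) (i : Fin 14) : i ∈ star v ↔ v ∈ e i := by
  simp [star]

/-- all sublists (as lists of truth values) with a given sum -/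
def sols : List ℕ → ℕ → List (List Bool)
  | [], 0 => [[]]
  | [], _ + 1 => []
  | a :: l, t => (sols l t).map (fun s => false :: s) ++
      (if a ≤ t then (sols l (t - a)).map (fun s => true :: s) else [])

/-- the sum over the chosen entries -/
def dot : List ℕ → List Bool → ℕ
  | a :: l, b :: s => (if b then a else 0) + dot l s
  | _, _ => 0

theorem mem_sols : ∀ (l : List ℕ) (s : List Bool), s.length = l.length → s ∈ sols l (dot l s) := by
  intro l
  induction l with
  | nil =>
    intro s hs
    have : s = [] := List.length_eq_zero_iff.mp hs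
    subst this
    simp [dot, sols]
  | cons a l ih =>
    intro s hs
    cases s with
    | nil => simp at hs
    | cons b s =>
      have hs' : s.length = l.length := by simpa using hs
      have h1 := ih s hs'
      cases b with
      | false => simp [dot, sols, h1]
      | true => simp [dot, sols, h1]

theorem dot_ofFn : ∀ (n : ℕ) (f : Fin n → ℕ) (g : Fin n → Bool),
    dot (List.ofFn f) (List.ofFn g) = ∑ i, if g i then f i else 0 := by
  intro n
  induction n with
  | zero => intro f g; simp [dot]
  | succ n ih =>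
    intro f g
    rw [List.ofFn_succ, List.ofFn_succ, dot, ih, Fin.sum_univ_succ]

theorem sols_stars : ∀ s ∈ sols (List.ofFn w) 600,
    ∃ v : Fin 9, s = List.ofFn fun i => decide (v ∈ e i) := by
  decide +kernel

theorem sum_star : ∀ v : Fin 9, ∑ i ∈ star v, w i = 600 := by
  decide +kernel

theorem eq_star_of_sum (S : Finset (Fin 14)) (h : ∑ i ∈ S, w i = 600) : ∃ v, S = star v := by
  have h1 : dot (List.ofFn w) (List.ofFn fun i => decide (i ∈ S)) = 600 := by
    rw [dot_ofFn, ← h]
    simp
  have h2 := mem_sols (List.ofFn w) (List.ofFn fun i => decide (i ∈ S)) (by simp)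
  rw [h1] at h2
  obtain ⟨v, hv⟩ := sols_stars _ h2
  refine ⟨v, ?_⟩
  have h3 := List.ofFn_injective hv
  ext i
  have h4 := congrFun h3 i
  rw [mem_star]
  simpa using h4

theorem card_e : ∀ i, (e i).card = 2 := by decide

theorem helly : ∀ i j k, ¬ Disjoint (e i) (e j) → ¬ Disjoint (e i) (e k) →
    ¬ Disjoint (e j) (e k) → ∃ v, v ∈ e i ∧ v ∈ e j ∧ v ∈ e k := by
  decide +kernel

theorem star_full : ∀ v k, (∀ i, v ∈ e i → ¬ Disjoint (e i) (e k)) → v ∈ e k := by
  decide +kernel

theorem two_edges : ∀ v : Fin 9, ∃ i j, i ≠ j ∧ v ∈ e i ∧ v ∈ e j := by decide +kernel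

theorem simple : ∀ i j, i ≠ j → ∀ v v', v ∈ e i → v ∈ e j → v' ∈ e i → v' ∈ e j → v = v' := by
  decide +kernel

theorem not_disj_of_stable {S : Finset (Fin 14)} (hS : G.IsIndepSet (S : Set (Fin 14)))
    {i j : Fin 14} (hi : i ∈ S) (hj : j ∈ S) : ¬ Disjoint (e i) (e j) := by
  by_cases hij : i = j
  · subst hij
    intro h
    have h1 := card_e i
    rw [disjoint_self] at h
    rw [h] at h1
    simp at h1
  · exact hS hi hj hij

theorem star_stable (v : Fin 9) : G.IsIndepSet (star v : Set (Fin 14)) := by
  intro i hi j hj _ hadj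
  rw [Finset.mem_coe, mem_star] at hi hj
  exact Finset.disjoint_left.mp hadj hi hj

theorem star_max (v : Fin 9) : IsMaxStable G (star v) := by
  refine ⟨star_stable v, fun T hT hle k hk => ?_⟩
  rw [mem_star]
  refine star_full v k fun i hi => ?_
  exact not_disj_of_stable hT (hle ((mem_star v i).mpr hi)) hk

theorem exists_star {S : Finset (Fin 14)} (hS : G.IsIndepSet (S : Set (Fin 14))) :
    ∃ v, S ≤ star v := by
  by_contra hcon
  push Not at hcon
  have h : ∀ v, ∃ i ∈ S, v ∉ e i := by
    intro v
    by_contra h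
    push Not at h
    exact hcon v fun i hi => (mem_star v i).mpr (h i hi)
  obtain ⟨i, hi, -⟩ := h 0
  obtain ⟨p, q, -, hpq⟩ := Finset.card_eq_two.mp (card_e i)
  obtain ⟨j, hj, hpj⟩ := h p
  obtain ⟨k, hk, hqk⟩ := h q
  obtain ⟨v, hvi, hvj, hvk⟩ := helly i j k (not_disj_of_stable hS hi hj)
    (not_disj_of_stable hS hi hk) (not_disj_of_stable hS hj hk)
  rw [hpq, Finset.mem_insert, Finset.mem_singleton] at hvi
  rcases hvi with rfl | rfl
  · exact hpj hvj
  · exact hqk hvk

theorem max_stable_iff (S : Finset (Fin 14)) : IsMaxStable G S ↔ ∃ v, S = star v := by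
  constructor
  · intro hS
    obtain ⟨v, hv⟩ := exists_star hS.prop
    exact ⟨v, le_antisymm hv (hS.le_of_ge (star_stable v) hv)⟩
  · rintro ⟨v, rfl⟩
    exact star_max v

theorem equistable : IsEquistable G := by
  refine ⟨fun i => (w i : ℝ) / 600, fun i => by positivity, fun S => ?_⟩
  rw [max_stable_iff, ← Finset.sum_div, div_eq_one_iff_eq (by norm_num), ← Nat.cast_sum]
  constructor
  · rintro ⟨v, rfl⟩
    rw [sum_star]
    norm_num
  · intro h
    apply eq_star_of_sum
    exact_mod_cast h

theorem not_weaklyCIS : ¬ IsWeaklyCIS G := by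
  rintro ⟨𝒞, 𝒮, h𝒞, h𝒮, hedge, hnon, hcross⟩
  have hstar : ∀ v, star v ∈ 𝒮 := by
    intro v
    obtain ⟨i, j, hij, hi, hj⟩ := two_edges v
    obtain ⟨S, hS, hiS, hjS⟩ := hnon i j hij fun h => Finset.disjoint_left.mp h hi hj
    obtain ⟨v', rfl⟩ := (max_stable_iff S).mp (h𝒮 S hS)
    rw [mem_star] at hiS hjS
    rw [simple i j hij v v' hi hj hiS hjS]
    exact hS
  obtain ⟨C, hC, -⟩ := hedge 0 5 (by rw [adj_iff]; decide)
  have hclique := (h𝒞 C hC).prop
  have hcover : C.biUnion e = Finset.univ := by
    ext v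
    simp only [Finset.mem_biUnion, Finset.mem_univ, iff_true]
    obtain ⟨i, hi⟩ := hcross C hC (star v) (hstar v)
    rw [Finset.mem_inter, mem_star] at hi
    exact ⟨i, hi⟩
  have hcard : (C.biUnion e).card = ∑ i ∈ C, (e i).card :=
    Finset.card_biUnion fun i hi j hj hij => hclique hi hj hij
  rw [hcover, Finset.sum_congr rfl fun i _ => card_e i, Finset.sum_const, Finset.card_univ,
    Fintype.card_fin, smul_eq_mul] at hcard
  omega

/-- There is an equistable graph (with 14 vertices) which is not weakly CIS. -/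
theorem result : ∃ G : SimpleGraph (Fin 14), IsEquistable G ∧ ¬ IsWeaklyCIS G :=
  ⟨G, equistable, not_weaklyCIS⟩

end Pool.Agent.Results.MP_59918e_co.NotWeaklyCIS
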